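import Pool.Agent.Run7.h795.DD.PK

/-!
Project DD, piece PK: the residual of one packet is `O(λ)`; the end.
-/

set_option autoImplicit false

open MeasureTheory Set
open scoped ContDiff

namespace Run7.h795.DD

/-! ### vectors -/

lemma norm_le_sum_abs {ι : Type} [Fintype ι] (x : EuclideanSpace ℝ ι) : ‖x‖ ≤ ∑ i, |x i| := by
  classical
  have h := (EuclideanSpace.basisFun ι ℝ).sum_repr x
  calc ‖x‖ = ‖∑ i, (EuclideanSpace.basisFun ι ℝ).repr x i • (EuclideanSpace.basisFun ι ℝ) i‖ := by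
        rw [h]
    _ ≤ ∑ i, ‖(EuclideanSpace.basisFun ι ℝ).repr x i • (EuclideanSpace.basisFun ι ℝ) i‖ :=
        norm_sum_le _ _
    _ = ∑ i, |x i| := by
        refine Finset.sum_congr rfl fun i _ => ?_
        rw [norm_smul, (EuclideanSpace.basisFun ι ℝ).norm_eq_one, mul_one]
        simp

lemma hasDerivAt_vec {g : ℝ → E3} {g' : Fin 3 → ℝ} {t : ℝ}
    (h : ∀ i, HasDerivAt (fun s => g s i) (g' i) t) :
    HasDerivAt g (WithLp.toLp 2 g') t := by
  rw [hasDerivAt_iff_hasFDerivAt, ← hasFDerivWithinAt_univ, hasFDerivWithinAt_euclidean]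
  intro i
  have := (h i).hasFDerivAt.hasFDerivWithinAt (s := Set.univ)
  refine this.congr_fderiv ?_
  ext
  simp

/-- the bounds for a field whose components are `λ` times functions in `O0` -/
lemma vec_bound {ν : ℝ} (G : ℝ → ℝ → E3 → E3) (F : Fin 3 → ℝ → ℝ → E3 → ℝ)
    (hF : ∀ i, O0 ν (F i)) (hG : ∀ lam, 1 ≤ lam → ∀ t x i, G lam t x i = lam * F i lam t x) :
    ∃ Q : ℝ, 0 ≤ Q ∧ ∀ lam : ℝ, 1 ≤ lam → ∀ t : ℝ, 0 ≤ t → ∀ x : E3,
      ‖G lam t x‖ ≤ Q * (lam * w ν lam t) ∧
      ‖deriv (fun s => G lam s x) t‖ ≤ Q * (lam ^ 3 * w ν lam t) := by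
  choose F' C hC H using hF
  refine ⟨∑ i, C i, Finset.sum_nonneg fun i _ => hC i, fun lam hl t ht x => ?_⟩
  have hl0 : 0 ≤ lam := by linarith
  have hd : HasDerivAt (fun s => G lam s x) (WithLp.toLp 2 fun i => lam * F' i lam t x) t := by
    refine hasDerivAt_vec fun i => ?_
    have e : (fun s => G lam s x i) = fun s => lam * F i lam s x := by
      funext s
      exact hG lam hl s x i
    rw [e]
    exact (H i lam hl t x).1.const_mul lam
  constructor
  · refine (norm_le_sum_abs _).trans ?_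
    rw [Finset.sum_mul]
    refine Finset.sum_le_sum fun i _ => ?_
    rw [hG lam hl t x i, abs_mul, abs_of_nonneg hl0]
    have := ((H i lam hl t x).2 ht).1
    nlinarith
  · rw [hd.deriv]
    refine (norm_le_sum_abs _).trans ?_
    rw [Finset.sum_mul]
    refine Finset.sum_le_sum fun i _ => ?_
    show |lam * F' i lam t x| ≤ _
    rw [abs_mul, abs_of_nonneg hl0]
    have := mul_le_mul_of_nonneg_left ((H i lam hl t x).2 ht).2 hl0
    calc _ ≤ _ := this
      _ = _ := by ring

/-! ### the fields of the interface -/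

open Run7.h744.DD (Sm psi bt pkt mnf pke lapS)

variable {ν : ℝ} {U0 V : E3 → E3} {a : E3 → ℝ}

/-- components -/
noncomputable def comp (U : E3 → E3) (h : Sm U) (j : Fin 3) : SC :=
  ⟨fun x => U x j, (EuclideanSpace.proj (𝕜 := ℝ) j).contDiff.comp h.smooth,
    h.compact.comp_left (g := fun y : E3 => y j) rfl⟩

/-- the data -/
noncomputable def dat (hν : 0 < ν) (hU : Sm U0) (hV : Sm V) (ha : Sm a) (l : Fin 3) : Dat where
  ν := ν
  hν := hν
  l := l
  a := ⟨a, ha.smooth, ha.compact⟩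
  U := comp U0 hU
  V := comp V hV

lemma psi_eq (hν : 0 < ν) (hU : Sm U0) (hV : Sm V) (ha : Sm a) (l : Fin 3) (lam t : ℝ) :
    psi ν lam U0 V a (l + 1) t = ((dat hν hU hV ha l).Psi lam t : E3 → ℝ) := by
  funext x
  show _ = (T0 ν lam t * a x) * Real.sin (lam * x (l + 1)) +
    (lam⁻¹ * (T1 ν lam t * (2 * ν * pd (l + 1) a x - a x * U0 x (l + 1))
      - T2 ν lam t * (a x * V x (l + 1)))) * Real.cos (lam * x (l + 1))
  have e : Run7.h744.DD.pd (l + 1) a x = pd (l + 1) a x := rfl
  unfold psi bt T1 T2 T0 T3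
  rw [e]
  ring

lemma pkt_eq (hν : 0 < ν) (hU : Sm U0) (hV : Sm V) (ha : Sm a) (l : Fin 3) (lam t : ℝ) (i : Fin 3) :
    (fun y => pkt ν lam U0 V a l t y i) = ((dat hν hU hV ha l).P lam t i : E3 → ℝ) := by
  funext x
  show (if i = l then Run7.h744.DD.pd (l + 1) (psi ν lam U0 V a (l + 1) t) x
    else if i = l + 1 then -Run7.h744.DD.pd l (psi ν lam U0 V a (l + 1) t) x else 0) = _
  rw [psi_eq hν hU hV ha]
  unfold Dat.P
  show _ = ((if i = l then D (l + 1) ((dat hν hU hV ha l).Psi lam t)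
    else if i = l + 1 then -D l ((dat hν hU hV ha l).Psi lam t) else 0 : SC) : E3 → ℝ) x
  split_ifs <;> rfl

lemma mnf_eq (hν : 0 < ν) (hU : Sm U0) (hV : Sm V) (ha : Sm a) (l : Fin 3) (lam t : ℝ) (i : Fin 3) :
    (fun y => mnf ν lam U0 V t y i) = ((dat hν hU hV ha l).MM lam t i : E3 → ℝ) := by
  funext x
  rfl

lemma pke_eq (hν : 0 < ν) (hU : Sm U0) (hV : Sm V) (ha : Sm a) (l : Fin 3) (lam t : ℝ) (x : E3)
    (i : Fin 3) (d : Dat) (hd : d = dat hν hU hV ha l) :
    pke ν lam U0 V a l t x i =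
      (if i = l then lam ^ 2 * T3 ν lam t * (d.a x * D l d.a x) else 0)
      + ν * (∑ j, D j (D j (d.P lam t i)) x)
      - (∑ j, d.P lam t j x * D j (d.P lam t i) x)
      - (∑ j, d.MM lam t j x * D j (d.P lam t i) x)
      - (∑ j, d.P lam t j x * D j (d.MM lam t i) x)
      - deriv (fun s => d.P lam s i x) t := by
  subst hd
  show (if i = l then lam ^ 2 * Real.exp (-(2 * ν * lam ^ 2 * t)) * (a x * Run7.h744.DD.pd l a x) else 0)
    + ν * lapS (fun y => pkt ν lam U0 V a l t y i) x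
    - ∑ j, (fun y => pkt ν lam U0 V a l t y j) x * Run7.h744.DD.pd j (fun y => pkt ν lam U0 V a l t y i) x
    - ∑ j, (fun y => mnf ν lam U0 V t y j) x * Run7.h744.DD.pd j (fun y => pkt ν lam U0 V a l t y i) x
    - ∑ j, (fun y => pkt ν lam U0 V a l t y j) x * Run7.h744.DD.pd j (fun y => mnf ν lam U0 V t y i) x
    - deriv (fun s => (fun y => pkt ν lam U0 V a l s y i) x) t = _
  have h1 : ∀ s y j, pkt ν lam U0 V a l s y j = (dat hν hU hV ha l).P lam s j y :=
    fun s y j => congrFun (pkt_eq hν hU hV ha l lam s j) y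
  simp only [h1]
  rfl

/-- the `ξ` component -/
lemma pke_l (d : Dat) {lam : ℝ} (h : lam ≠ 0) (t : ℝ) (x : E3) :
    lam ^ 2 * T3 d.ν lam t * (d.a x * D d.l d.a x)
      + d.ν * (∑ j, D j (D j (d.P lam t d.l)) x)
      - (∑ j, d.P lam t j x * D j (d.P lam t d.l) x)
      - (∑ j, d.MM lam t j x * D j (d.P lam t d.l) x)
      - (∑ j, d.P lam t j x * D j (d.MM lam t d.l) x)
      - deriv (fun s => d.P lam s d.l x) t = lam * d.FX lam t x := by
  have p1 : ∀ s, d.P lam s d.l = D d.k (d.Psi lam s) := fun s => if_pos rfl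
  have p2 : ∀ s, d.P lam s d.k = -D d.l (d.Psi lam s) := fun s => by
    unfold Dat.P
    rw [if_neg d.lk.symm, if_pos rfl]
  have p3 : ∀ s, d.P lam s d.e = 0 := fun s => by
    unfold Dat.P
    rw [if_neg d.el, if_neg d.ek]
  have m1 : ∀ j, d.MM lam t j x = d.m j lam t x := fun j => rfl
  have m2 : ∀ i j, D i (d.MM lam t j) x = d.mp i j lam t x := fun i j => by
    unfold Dat.MM
    rw [map_add, map_smul]
    rfl
  simp only [d.sum3', p1, p2, p3, m1, m2]
  have e0 : ((-D d.l (d.Psi lam t) : SC) : E3 → ℝ) x = -(D d.l (d.Psi lam t) x) := rfl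
  have e1 : ((0 : SC) : E3 → ℝ) x = 0 := rfl
  rw [e0, e1]
  have hlin := d.linX t x h
  have a1 := d.vX t x h
  have a2 := d.vX1 t x h
  have a3 := d.vK (lam := lam) t x
  have a4 := d.vK1 (lam := lam) t x
  have a5 := d.vXk t x h
  have a6 := d.vXl t x h
  have a7 := d.vXl' t x h
  have a8 := d.vXe t x h
  have hsc : d.S lam t x ^ 2 + d.C lam t x ^ 2 = 1 := Real.sin_sq_add_cos_sq _
  have hT := T0_sq d.ν lam t
  -- the nonlinear term
  have hnl : D d.k (d.Psi lam t) x * D d.l (D d.k (d.Psi lam t)) x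
      - D d.l (d.Psi lam t) x * D d.k (D d.k (d.Psi lam t)) x
      = lam ^ 2 * T3 d.ν lam t * (d.a x * D d.l d.a x) + lam * d.NL lam t x := by
    rw [a2, a4, a5, a6]
    unfold Dat.NL
    have hA : d.fA d.a lam t x * d.fA (D d.l d.a) lam t x = T3 d.ν lam t * (d.a x * D d.l d.a x) := by
      unfold Dat.fA
      rw [← hT]
      ring
    generalize d.fA d.a lam t x = A at *
    generalize d.fA (D d.l d.a) lam t x = Al at *
    generalize d.S lam t x = S at *
    generalize d.C lam t x = C at *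
    generalize d.r1 lam t x = r1 at *
    generalize d.r2 d.l lam t x = r2 at *
    generalize d.s3 lam t x = s3 at *
    generalize d.s4 lam t x = s4 at *
    have key : (lam * (A * C) + r1) * (lam * (Al * C) + r2)
        - (Al * S + s3 * lam⁻¹) * (-(lam ^ 2 * (A * S)) + lam * s4)
        = lam ^ 2 * (A * Al) * (S ^ 2 + C ^ 2)
          + lam * (A * (C * r2) + Al * (C * r1) + r1 * (r2 * lam⁻¹) - Al * (S * s4)
            + A * (S * s3) - s3 * (s4 * lam⁻¹)) := by
      field_simp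
      ring
    rw [key, hsc, hA]
    ring
  have hlast : D d.k (d.Psi lam t) x * d.mp d.l d.l lam t x
      - D d.l (d.Psi lam t) x * d.mp d.k d.l lam t x
      = lam * (d.X0 lam t x * d.mp d.l d.l lam t x - d.K0 lam t x * (lam⁻¹ * d.mp d.k d.l lam t x)) := by
    rw [a1, a3]
    field_simp
  unfold Dat.FX
  rw [a5, a7, a8] at *
  linear_combination hlin - hnl - hlast

/-- the `κ` component -/
lemma pke_k (d : Dat) {lam : ℝ} (h : lam ≠ 0) (t : ℝ) (x : E3) :
    d.ν * (∑ j, D j (D j (d.P lam t d.k)) x)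
      - (∑ j, d.P lam t j x * D j (d.P lam t d.k) x)
      - (∑ j, d.MM lam t j x * D j (d.P lam t d.k) x)
      - (∑ j, d.P lam t j x * D j (d.MM lam t d.k) x)
      - deriv (fun s => d.P lam s d.k x) t = lam * d.FK lam t x := by
  have p1 : ∀ s, d.P lam s d.l = D d.k (d.Psi lam s) := fun s => if_pos rfl
  have p2 : ∀ s, d.P lam s d.k = -D d.l (d.Psi lam s) := fun s => by
    unfold Dat.P
    rw [if_neg d.lk.symm, if_pos rfl]
  have p3 : ∀ s, d.P lam s d.e = 0 := fun s => by
    unfold Dat.P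
    rw [if_neg d.el, if_neg d.ek]
  have m1 : ∀ j, d.MM lam t j x = d.m j lam t x := fun j => rfl
  have m2 : ∀ i j, D i (d.MM lam t j) x = d.mp i j lam t x := fun i j => by
    unfold Dat.MM
    rw [map_add, map_smul]
    rfl
  simp only [d.sum3', p1, p2, p3, m1, m2, map_neg]
  have e0 : ∀ f : SC, ((-f : SC) : E3 → ℝ) x = -(f x) := fun f => rfl
  have e1 : ((0 : SC) : E3 → ℝ) x = 0 := rfl
  simp only [e0, e1]
  have e2 : deriv (fun s => -(D d.l (d.Psi lam s) x)) t = -deriv (fun s => D d.l (d.Psi lam s) x) t :=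
    deriv.fun_neg
  rw [e2]
  have hlin := d.linK t x h
  have a1 := d.vX t x h
  have a3 := d.vK (lam := lam) t x
  have a5 := d.vKk t x h
  have a6 := d.vKl (lam := lam) t x
  have a8 := d.vKe (lam := lam) t x
  have hlast : D d.k (d.Psi lam t) x * d.mp d.l d.k lam t x
      - D d.l (d.Psi lam t) x * d.mp d.k d.k lam t x
      = lam * (d.X0 lam t x * d.mp d.l d.k lam t x - d.K0 lam t x * (lam⁻¹ * d.mp d.k d.k lam t x)) := by
    rw [a1, a3]
    field_simp
  have hm : d.m d.l lam t x * D d.l (D d.l (d.Psi lam t)) x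
      + d.m d.k lam t x * D d.k (D d.l (d.Psi lam t)) x
      + d.m d.e lam t x * D d.e (D d.l (d.Psi lam t)) x
      = lam * (d.Kk lam t x * d.m d.k lam t x + d.Kj d.l lam t x * (lam⁻¹ * d.m d.l lam t x)
      + d.Kj d.e lam t x * (lam⁻¹ * d.m d.e lam t x)) := by
    rw [a5, a6, a8]
    field_simp
    ring
  have hnl : D d.k (d.Psi lam t) x * D d.l (D d.l (d.Psi lam t)) x
      - D d.l (d.Psi lam t) x * D d.k (D d.l (d.Psi lam t)) x
      = lam * (d.X0 lam t x * d.Kj d.l lam t x - d.K0 lam t x * d.Kk lam t x) := by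
    rw [a1, a3, a5, a6]
    ring
  unfold Dat.FK
  linear_combination -hlin + hnl + hm - hlast

/-- the `η` component -/
lemma pke_e (d : Dat) {lam : ℝ} (h : lam ≠ 0) (t : ℝ) (x : E3) :
    d.ν * (∑ j, D j (D j (d.P lam t d.e)) x)
      - (∑ j, d.P lam t j x * D j (d.P lam t d.e) x)
      - (∑ j, d.MM lam t j x * D j (d.P lam t d.e) x)
      - (∑ j, d.P lam t j x * D j (d.MM lam t d.e) x)
      - deriv (fun s => d.P lam s d.e x) t = lam * d.FE lam t x := by
  have p1 : ∀ s, d.P lam s d.l = D d.k (d.Psi lam s) := fun s => if_pos rfl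
  have p2 : ∀ s, d.P lam s d.k = -D d.l (d.Psi lam s) := fun s => by
    unfold Dat.P
    rw [if_neg d.lk.symm, if_pos rfl]
  have p3 : ∀ s, d.P lam s d.e = 0 := fun s => by
    unfold Dat.P
    rw [if_neg d.el, if_neg d.ek]
  have m2 : ∀ i j, D i (d.MM lam t j) x = d.mp i j lam t x := fun i j => by
    unfold Dat.MM
    rw [map_add, map_smul]
    rfl
  simp only [d.sum3', p1, p2, p3, m2, map_zero]
  have e0 : ∀ f : SC, ((-f : SC) : E3 → ℝ) x = -(f x) := fun f => rfl
  have e1 : ((0 : SC) : E3 → ℝ) x = 0 := rfl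
  simp only [e0, e1, deriv_const]
  have a1 := d.vX t x h
  have a3 := d.vK (lam := lam) t x
  rw [a1, a3]
  unfold Dat.FE
  field_simp
  ring

/-- the components of the packet, divided by `λ` -/
noncomputable def pF (d : Dat) (i : Fin 3) (lam t : ℝ) (x : E3) : ℝ :=
  if i = d.l then d.X0 lam t x else if i = d.k then -(d.K0 lam t x * lam⁻¹) else 0

lemma opF (d : Dat) (i : Fin 3) : O0 d.ν (pF d i) := by
  unfold pF
  by_cases h1 : i = d.l
  · simp only [h1, if_true]
    exact d.oX0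
  · by_cases h2 : i = d.k
    · simp only [h2, d.lk.symm, if_false, if_true]
      exact (d.oK0.mul Bd.inv).neg
    · simp only [h1, if_false, h2]
      exact O0.zero

lemma pF_eq (d : Dat) (i : Fin 3) {lam : ℝ} (h : lam ≠ 0) (t : ℝ) (x : E3) :
    d.P lam t i x = lam * pF d i lam t x := by
  unfold pF Dat.P
  split_ifs
  · exact d.vX t x h
  · show -(D d.l (d.Psi lam t) x) = _
    rw [d.vK (lam := lam) t x]
    field_simp
  · show (0 : ℝ) = _
    ring

/-- the residual, divided by `λ` -/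
noncomputable def eF (d : Dat) (i : Fin 3) (lam t : ℝ) (x : E3) : ℝ :=
  if i = d.l then d.FX lam t x else if i = d.k then d.FK lam t x else d.FE lam t x

lemma oeF (d : Dat) (i : Fin 3) : O0 d.ν (eF d i) := by
  unfold eF
  by_cases h1 : i = d.l
  · simp only [h1, if_true]
    exact d.oFX
  · by_cases h2 : i = d.k
    · simp only [h2, d.lk.symm, if_false, if_true]
      exact d.oFK
    · simp only [h1, if_false, h2]
      exact d.oFE

lemma three (d : Dat) (i : Fin 3) (h1 : i ≠ d.l) (h2 : i ≠ d.k) : i = d.e := by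
  unfold Dat.k at h2
  unfold Dat.e
  generalize d.l = l at *
  decide +revert

/-- the entries of the Jacobian, divided by `λ²` -/
lemma jac_entry (d : Dat) (i j : Fin 3) : ∃ F, O0 d.ν F ∧ ∀ lam, 1 ≤ lam → ∀ t x,
    D j (d.P lam t i) x = lam ^ 2 * F lam t x := by
  have p1 : ∀ lam t, d.P lam t d.l = D d.k (d.Psi lam t) := fun _ _ => if_pos rfl
  have p2 : ∀ lam t, d.P lam t d.k = -D d.l (d.Psi lam t) := fun _ _ => by
    unfold Dat.P
    rw [if_neg d.lk.symm, if_pos rfl]
  have p3 : ∀ lam t, d.P lam t d.e = 0 := fun _ _ => by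
    unfold Dat.P
    rw [if_neg d.el, if_neg d.ek]
  by_cases h1 : i = d.l
  · subst h1
    by_cases h3 : j = d.k
    · subst h3
      refine ⟨fun lam t x => -(d.fA d.a lam t x * d.S lam t x) + d.s4 lam t x * lam⁻¹,
        (((d.oA _).mul d.bS).neg).add (d.os4.mul Bd.inv), fun lam hl t x => ?_⟩
      have h : lam ≠ 0 := by positivity
      rw [p1, d.vXk t x h]
      field_simp
    · by_cases h4 : j = d.l
      · subst h4
        refine ⟨fun lam t x => d.Xj d.l lam t x * lam⁻¹, (d.oXj _).mul Bd.inv, fun lam hl t x => ?_⟩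
        have h : lam ≠ 0 := by positivity
        rw [p1, d.vXl' t x h]
        field_simp
      · have h5 := three d j h4 h3
        subst h5
        refine ⟨fun lam t x => d.Xj d.e lam t x * lam⁻¹, (d.oXj _).mul Bd.inv, fun lam hl t x => ?_⟩
        have h : lam ≠ 0 := by positivity
        rw [p1, d.vXe t x h]
        field_simp
  · by_cases h2 : i = d.k
    · subst h2
      have e0 : ∀ (f : SC) (x : E3), ((-f : SC) : E3 → ℝ) x = -(f x) := fun f _ => rfl
      by_cases h3 : j = d.k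
      · subst h3
        refine ⟨fun lam t x => -(d.Kk lam t x * lam⁻¹), (d.oKk.mul Bd.inv).neg,
          fun lam hl t x => ?_⟩
        have h : lam ≠ 0 := by positivity
        rw [p2, map_neg, e0, d.vKk t x h]
        field_simp
      · by_cases h4 : j = d.l
        · subst h4
          refine ⟨fun lam t x => -(d.Kj d.l lam t x * (lam⁻¹ * lam⁻¹)),
            ((d.oKj _).mul (Bd.inv.mul Bd.inv)).neg, fun lam hl t x => ?_⟩
          have h : lam ≠ 0 := by positivity
          rw [p2, map_neg, e0, d.vKl (lam := lam) t x]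
          field_simp
        · have h5 := three d j h4 h3
          subst h5
          refine ⟨fun lam t x => -(d.Kj d.e lam t x * (lam⁻¹ * lam⁻¹)),
            ((d.oKj _).mul (Bd.inv.mul Bd.inv)).neg, fun lam hl t x => ?_⟩
          have h : lam ≠ 0 := by positivity
          rw [p2, map_neg, e0, d.vKe (lam := lam) t x]
          field_simp
    · have h5 := three d i h1 h2
      subst h5
      refine ⟨fun _ _ _ => 0, O0.zero, fun lam hl t x => ?_⟩
      rw [p3, map_zero]
      show (0 : ℝ) = _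
      ring

open H772R2.NS (jac) in
theorem t_PK : Run7.h744.DD.S_PK := by
  intro ν U0 V a l hν hU hV ha
  obtain ⟨d, hd⟩ : ∃ d, d = dat hν hU hV ha l := ⟨_, rfl⟩
  have hdν : d.ν = ν := by rw [hd]; rfl
  have hdl : d.l = l := by rw [hd]; rfl
  have hk : d.k = l + 1 := by rw [hd]; rfl
  have hne : ∀ lam : ℝ, 1 ≤ lam → lam ≠ 0 := fun lam h => by positivity
  -- the packet
  have hp : ∀ lam, 1 ≤ lam → ∀ t x i, pkt ν lam U0 V a l t x i = lam * pF d i lam t x := by
    intro lam hl t x i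
    rw [← pF_eq d i (hne lam hl) t x, hd]
    exact congrFun (pkt_eq hν hU hV ha l lam t i) x
  obtain ⟨Q1, hQ1, H1⟩ := vec_bound (fun lam t x => pkt ν lam U0 V a l t x) (pF d) (opF d) hp
  -- the residual
  have he : ∀ lam, 1 ≤ lam → ∀ t x i, pke ν lam U0 V a l t x i = lam * eF d i lam t x := by
    intro lam hl t x i
    rw [pke_eq hν hU hV ha l lam t x i d hd, ← hdν, ← hdl]
    unfold eF
    by_cases h1 : i = d.l
    · rw [if_pos h1, if_pos h1, h1]
      exact pke_l d (hne lam hl) t x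
    · rw [if_neg h1, if_neg h1, zero_add]
      by_cases h2 : i = d.k
      · rw [if_pos h2, h2]
        exact pke_k d (hne lam hl) t x
      · rw [if_neg h2, three d i h1 h2]
        exact pke_e d (hne lam hl) t x
  obtain ⟨Q2, hQ2, H2⟩ := vec_bound (fun lam t x => pke ν lam U0 V a l t x) (eF d) (oeF d) he
  -- the Jacobian
  choose F hF hFe using fun p : Fin 3 × Fin 3 => jac_entry d p.1 p.2
  choose F' C hC HF using hF
  have hj : ∀ lam, 1 ≤ lam → ∀ t x (p : Fin 3 × Fin 3),
      jac (pkt ν lam U0 V a l t) x p = lam ^ 2 * F p lam t x := by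
    intro lam hl t x p
    have hdiff : ∀ i, Differentiable ℝ fun y => pkt ν lam U0 V a l t y i := by
      intro i
      rw [pkt_eq hν hU hV ha]
      exact sc_diff _
    have hD : DifferentiableAt ℝ (pkt ν lam U0 V a l t) x := (differentiable_euclidean.2 hdiff) x
    rw [← hFe p lam hl t x, hd]
    show fderiv ℝ (pkt ν lam U0 V a l t) x (EuclideanSpace.single p.2 1) p.1 =
      fderiv ℝ ((dat hν hU hV ha l).P lam t p.1 : E3 → ℝ) x (EuclideanSpace.single p.2 1)
    rw [← pkt_eq hν hU hV ha]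
    have h2 : HasFDerivAt (fun y => pkt ν lam U0 V a l t y p.1)
        ((EuclideanSpace.proj (𝕜 := ℝ) p.1 : E3 →L[ℝ] ℝ) ∘L fderiv ℝ (pkt ν lam U0 V a l t) x) x :=
      (EuclideanSpace.proj (𝕜 := ℝ) p.1 : E3 →L[ℝ] ℝ).hasFDerivAt.comp x hD.hasFDerivAt
    rw [h2.fderiv]
    rfl
  refine ⟨Q1 + Q2 + ∑ p, C p + 1, by
    have := Finset.sum_nonneg fun p (_ : p ∈ Finset.univ) => hC p
    positivity, fun lam hl t ht x => ?_⟩
  have hCs := Finset.sum_nonneg fun p (_ : p ∈ (Finset.univ : Finset (Fin 3 × Fin 3))) => hC p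
  have hw : Run7.h744.DD.wt ν lam t = w ν lam t := rfl
  have hw0 := (w_pos ν lam t).le
  have hl0 : 0 ≤ lam := by linarith
  obtain ⟨b1, b2⟩ := H1 lam hl t ht x
  obtain ⟨b3, b4⟩ := H2 lam hl t ht x
  rw [hdν] at b1 b2 b3 b4
  rw [hw]
  have c1 : 0 ≤ lam * w ν lam t := by positivity
  have c3 : 0 ≤ lam ^ 3 * w ν lam t := by positivity
  have c2 : 0 ≤ lam ^ 2 * w ν lam t := by positivity
  refine ⟨b3.trans ?_, b4.trans ?_, b1.trans ?_, b2.trans ?_, ?_⟩
  · exact mul_le_mul_of_nonneg_right (by linarith) c1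
  · exact mul_le_mul_of_nonneg_right (by linarith) c3
  · exact mul_le_mul_of_nonneg_right (by linarith) c1
  · exact mul_le_mul_of_nonneg_right (by linarith) c3
  · refine (norm_le_sum_abs _).trans ?_
    have h5 : ∑ p, |jac (pkt ν lam U0 V a l t) x p| ≤ (∑ p, C p) * (lam ^ 2 * w ν lam t) := by
      rw [Finset.sum_mul]
      refine Finset.sum_le_sum fun p _ => ?_
      rw [hj lam hl t x p, abs_mul, abs_of_nonneg (by positivity)]
      have := ((HF p lam hl t x).2 ht).1
      rw [hdν] at this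
      nlinarith [sq_nonneg lam]
    exact h5.trans (mul_le_mul_of_nonneg_right (by linarith) c2)

end Run7.h795.DD
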