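import Mathlib

/-!
Project DD, piece PK, part 1: the classes `O0` and `Bd` of functions of `(λ, t, x)`; the space `SC`
of smooth functions with compact support, its partial derivatives `D i`, and the combinations
`EV P Q = P sin(λ x_k) + Q cos(λ x_k)`.
-/

set_option autoImplicit false

open MeasureTheory Set
open scoped ContDiff

namespace Run7.h795.DD

/-- space -/
abbrev E3 := EuclideanSpace ℝ (Fin 3)

/-- the weight -/
noncomputable def w (ν lam t : ℝ) : ℝ := Real.exp (-(ν * lam ^ 2 * t / 2))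

/-- bounded by `C w`, with time derivative bounded by `C λ² w` -/
def O0 (ν : ℝ) (f : ℝ → ℝ → E3 → ℝ) : Prop :=
  ∃ (f' : ℝ → ℝ → E3 → ℝ) (C : ℝ), 0 ≤ C ∧ ∀ lam, 1 ≤ lam → ∀ t x,
    HasDerivAt (fun s => f lam s x) (f' lam t x) t ∧
      (0 ≤ t → |f lam t x| ≤ C * w ν lam t ∧ |f' lam t x| ≤ C * (lam ^ 2 * w ν lam t))

/-- bounded, with time derivative bounded by `C λ²` -/
def Bd (f : ℝ → ℝ → E3 → ℝ) : Prop :=
  ∃ (f' : ℝ → ℝ → E3 → ℝ) (C : ℝ), 0 ≤ C ∧ ∀ lam, 1 ≤ lam → ∀ t x,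
    HasDerivAt (fun s => f lam s x) (f' lam t x) t ∧
      (0 ≤ t → |f lam t x| ≤ C ∧ |f' lam t x| ≤ C * lam ^ 2)

lemma w_pos (ν lam t : ℝ) : 0 < w ν lam t := Real.exp_pos _

lemma w_le_one {ν lam t : ℝ} (hν : 0 < ν) (ht : 0 ≤ t) : w ν lam t ≤ 1 := by
  unfold w
  rw [Real.exp_le_one_iff]
  have : 0 ≤ ν * lam ^ 2 * t / 2 := by positivity
  linarith

lemma O0.congr {ν : ℝ} {f g : ℝ → ℝ → E3 → ℝ} (h : O0 ν f)
    (hfg : ∀ lam, 1 ≤ lam → ∀ t x, f lam t x = g lam t x) : O0 ν g := by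
  obtain ⟨f', C, hC, H⟩ := h
  refine ⟨f', C, hC, fun lam hl t x => ?_⟩
  obtain ⟨h1, h2⟩ := H lam hl t x
  have e : (fun s => g lam s x) = fun s => f lam s x := by
    funext s
    exact (hfg lam hl s x).symm
  rw [e, ← hfg lam hl t x]
  exact ⟨h1, h2⟩

lemma O0.bd {ν : ℝ} {f : ℝ → ℝ → E3 → ℝ} (hν : 0 < ν) (h : O0 ν f) : Bd f := by
  obtain ⟨f', C, hC, H⟩ := h
  refine ⟨f', C, hC, fun lam hl t x => ?_⟩
  obtain ⟨h1, h2⟩ := H lam hl t x
  refine ⟨h1, fun ht => ?_⟩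
  obtain ⟨h3, h4⟩ := h2 ht
  have hw := w_le_one (lam := lam) hν ht
  have hw0 := (w_pos ν lam t).le
  refine ⟨h3.trans ?_, h4.trans ?_⟩
  · nlinarith
  · have : lam ^ 2 * w ν lam t ≤ lam ^ 2 := by nlinarith [sq_nonneg lam]
    nlinarith

lemma O0.add {ν : ℝ} {f g : ℝ → ℝ → E3 → ℝ} (hf : O0 ν f) (hg : O0 ν g) :
    O0 ν (fun lam t x => f lam t x + g lam t x) := by
  obtain ⟨f', C, hC, H⟩ := hf
  obtain ⟨g', C', hC', H'⟩ := hg
  refine ⟨fun lam t x => f' lam t x + g' lam t x, C + C', by positivity, fun lam hl t x => ?_⟩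
  obtain ⟨h1, h2⟩ := H lam hl t x
  obtain ⟨h1', h2'⟩ := H' lam hl t x
  refine ⟨h1.add h1', fun ht => ?_⟩
  obtain ⟨h3, h4⟩ := h2 ht
  obtain ⟨h3', h4'⟩ := h2' ht
  constructor
  · have := abs_add_le (f lam t x) (g lam t x)
    linarith
  · have := abs_add_le (f' lam t x) (g' lam t x)
    linarith

lemma O0.neg {ν : ℝ} {f : ℝ → ℝ → E3 → ℝ} (hf : O0 ν f) :
    O0 ν (fun lam t x => -f lam t x) := by
  obtain ⟨f', C, hC, H⟩ := hf
  refine ⟨fun lam t x => -f' lam t x, C, hC, fun lam hl t x => ?_⟩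
  obtain ⟨h1, h2⟩ := H lam hl t x
  refine ⟨h1.neg, fun ht => ?_⟩
  rw [abs_neg, abs_neg]
  exact h2 ht

lemma O0.sub {ν : ℝ} {f g : ℝ → ℝ → E3 → ℝ} (hf : O0 ν f) (hg : O0 ν g) :
    O0 ν (fun lam t x => f lam t x - g lam t x) :=
  (hf.add hg.neg).congr fun _ _ _ _ => (sub_eq_add_neg _ _).symm

lemma O0.zero {ν : ℝ} : O0 ν (fun _ _ _ => 0) := by
  refine ⟨fun _ _ _ => 0, 0, le_rfl, fun lam hl t x => ⟨hasDerivAt_const _ _, fun _ => ?_⟩⟩
  simp

lemma O0.mul {ν : ℝ} {f g : ℝ → ℝ → E3 → ℝ} (hf : O0 ν f) (hg : Bd g) :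
    O0 ν (fun lam t x => f lam t x * g lam t x) := by
  obtain ⟨f', C, hC, H⟩ := hf
  obtain ⟨g', C', hC', H'⟩ := hg
  refine ⟨fun lam t x => f' lam t x * g lam t x + f lam t x * g' lam t x, 2 * (C * C'),
    by positivity, fun lam hl t x => ?_⟩
  obtain ⟨h1, h2⟩ := H lam hl t x
  obtain ⟨h1', h2'⟩ := H' lam hl t x
  refine ⟨h1.mul h1', fun ht => ?_⟩
  obtain ⟨h3, h4⟩ := h2 ht
  obtain ⟨h3', h4'⟩ := h2' ht
  have hw0 := (w_pos ν lam t).le
  have hl2 : 0 ≤ lam ^ 2 := sq_nonneg _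
  constructor
  · rw [abs_mul]
    have := mul_le_mul h3 h3' (abs_nonneg _) (by positivity)
    have h5 : 0 ≤ C * C' * w ν lam t := by positivity
    nlinarith
  · have a1 := abs_add_le (f' lam t x * g lam t x) (f lam t x * g' lam t x)
    rw [abs_mul, abs_mul] at a1
    have a2 := mul_le_mul h4 h3' (abs_nonneg _) (by positivity)
    have a3 := mul_le_mul h3 h4' (abs_nonneg _) (by positivity)
    nlinarith

lemma Bd.mul {f g : ℝ → ℝ → E3 → ℝ} (hf : Bd f) (hg : Bd g) :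
    Bd (fun lam t x => f lam t x * g lam t x) := by
  obtain ⟨f', C, hC, H⟩ := hf
  obtain ⟨g', C', hC', H'⟩ := hg
  refine ⟨fun lam t x => f' lam t x * g lam t x + f lam t x * g' lam t x, 2 * (C * C'),
    by positivity, fun lam hl t x => ?_⟩
  obtain ⟨h1, h2⟩ := H lam hl t x
  obtain ⟨h1', h2'⟩ := H' lam hl t x
  refine ⟨h1.mul h1', fun ht => ?_⟩
  obtain ⟨h3, h4⟩ := h2 ht
  obtain ⟨h3', h4'⟩ := h2' ht
  have hl2 : 0 ≤ lam ^ 2 := sq_nonneg _
  constructor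
  · rw [abs_mul]
    have := mul_le_mul h3 h3' (abs_nonneg _) (by positivity)
    have h5 : 0 ≤ C * C' := by positivity
    nlinarith
  · have a1 := abs_add_le (f' lam t x * g lam t x) (f lam t x * g' lam t x)
    rw [abs_mul, abs_mul] at a1
    have a2 := mul_le_mul h4 h3' (abs_nonneg _) (by positivity)
    have a3 := mul_le_mul h3 h4' (abs_nonneg _) (by positivity)
    nlinarith

lemma Bd.add {f g : ℝ → ℝ → E3 → ℝ} (hf : Bd f) (hg : Bd g) :
    Bd (fun lam t x => f lam t x + g lam t x) := by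
  obtain ⟨f', C, hC, H⟩ := hf
  obtain ⟨g', C', hC', H'⟩ := hg
  refine ⟨fun lam t x => f' lam t x + g' lam t x, C + C', by positivity, fun lam hl t x => ?_⟩
  obtain ⟨h1, h2⟩ := H lam hl t x
  obtain ⟨h1', h2'⟩ := H' lam hl t x
  refine ⟨h1.add h1', fun ht => ?_⟩
  obtain ⟨h3, h4⟩ := h2 ht
  obtain ⟨h3', h4'⟩ := h2' ht
  constructor
  · have := abs_add_le (f lam t x) (g lam t x)
    linarith
  · have := abs_add_le (f' lam t x) (g' lam t x)
    linarith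

/-- functions which do not depend on the time -/
lemma Bd.of {h : ℝ → E3 → ℝ} {C : ℝ} (hC : 0 ≤ C) (hb : ∀ lam, 1 ≤ lam → ∀ x, |h lam x| ≤ C) :
    Bd (fun lam _ x => h lam x) := by
  refine ⟨fun _ _ _ => 0, C, hC, fun lam hl t x => ⟨hasDerivAt_const _ _, fun _ => ⟨hb lam hl x, ?_⟩⟩⟩
  rw [abs_zero]
  positivity

lemma Bd.const (c : ℝ) : Bd (fun _ _ _ => c) := Bd.of (abs_nonneg c) fun _ _ _ => le_rfl

lemma Bd.inv : Bd (fun lam _ _ => lam⁻¹) := by
  refine Bd.of zero_le_one fun lam hl _ => ?_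
  rw [abs_of_nonneg (by positivity)]
  exact inv_le_one_of_one_le₀ hl

/-! ### the time functions -/

/-- `e^{-νλ²t}` -/
noncomputable def T0 (ν lam t : ℝ) : ℝ := Real.exp (-(ν * lam ^ 2 * t))

/-- `e^{-2νλ²t}` -/
noncomputable def T3 (ν lam t : ℝ) : ℝ := Real.exp (-(2 * ν * lam ^ 2 * t))

/-- `λ² t e^{-νλ²t}` -/
noncomputable def T1 (ν lam t : ℝ) : ℝ := lam ^ 2 * t * T0 ν lam t

/-- `e^{-νλ²t} (1 - e^{-2νλ²t}) / (2ν)` -/
noncomputable def T2 (ν lam t : ℝ) : ℝ := T0 ν lam t * ((1 - T3 ν lam t) / (2 * ν))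

lemma T0_sq (ν lam t : ℝ) : T0 ν lam t * T0 ν lam t = T3 ν lam t := by
  unfold T0 T3
  rw [← Real.exp_add]
  congr 1
  ring

lemma hT0 (ν lam t : ℝ) : HasDerivAt (T0 ν lam) (-(ν * lam ^ 2) * T0 ν lam t) t := by
  have h1 : HasDerivAt (fun s : ℝ => -(ν * lam ^ 2 * s)) (-(ν * lam ^ 2 * 1)) t :=
    ((hasDerivAt_id t).const_mul (ν * lam ^ 2)).neg
  have h2 := h1.exp
  unfold T0
  convert h2 using 1
  ring

lemma hT3 (ν lam t : ℝ) : HasDerivAt (T3 ν lam) (-(2 * ν * lam ^ 2) * T3 ν lam t) t := by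
  have h1 : HasDerivAt (fun s : ℝ => -(2 * ν * lam ^ 2 * s)) (-(2 * ν * lam ^ 2 * 1)) t :=
    ((hasDerivAt_id t).const_mul (2 * ν * lam ^ 2)).neg
  have h2 := h1.exp
  unfold T3
  convert h2 using 1
  ring

lemma hT1 (ν lam t : ℝ) :
    HasDerivAt (T1 ν lam) (lam ^ 2 * T0 ν lam t - ν * lam ^ 2 * T1 ν lam t) t := by
  have h1 : HasDerivAt (fun s : ℝ => lam ^ 2 * s) (lam ^ 2 * 1) t :=
    (hasDerivAt_id t).const_mul (lam ^ 2)
  have h2 := h1.mul (hT0 ν lam t)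
  refine h2.congr_deriv ?_
  unfold T1
  ring

lemma hT2 {ν : ℝ} (hν : 0 < ν) (lam t : ℝ) :
    HasDerivAt (T2 ν lam) (-(ν * lam ^ 2) * T2 ν lam t + lam ^ 2 * (T0 ν lam t * T3 ν lam t)) t := by
  have h1 := (((hasDerivAt_const t (1 : ℝ)).sub (hT3 ν lam t)).div_const (2 * ν))
  have h2 := (hT0 ν lam t).mul h1
  refine h2.congr_deriv ?_
  have : ν ≠ 0 := hν.ne'
  unfold T2
  simp only [Pi.sub_apply, zero_sub]
  field_simp

lemma T0_le {ν lam t : ℝ} (hν : 0 < ν) (ht : 0 ≤ t) : |T0 ν lam t| ≤ w ν lam t := by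
  unfold T0 w
  rw [abs_of_pos (Real.exp_pos _), Real.exp_le_exp]
  have : 0 ≤ ν * lam ^ 2 * t := by positivity
  linarith

lemma T3_le {ν lam t : ℝ} (hν : 0 < ν) (ht : 0 ≤ t) : |T3 ν lam t| ≤ 1 := by
  unfold T3
  rw [abs_of_pos (Real.exp_pos _), Real.exp_le_one_iff]
  have : 0 ≤ ν * lam ^ 2 * t := by positivity
  linarith

lemma T1_le {ν lam t : ℝ} (hν : 0 < ν) (ht : 0 ≤ t) : |T1 ν lam t| ≤ 2 / ν * w ν lam t := by
  have h0 : 0 ≤ lam ^ 2 * t := by positivity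
  have e1 : T0 ν lam t = w ν lam t * w ν lam t := by
    unfold T0 w
    rw [← Real.exp_add]
    congr 1
    ring
  have h2 : ν * lam ^ 2 * t / 2 * w ν lam t ≤ 1 := by
    have h3 := Real.add_one_le_exp (ν * lam ^ 2 * t / 2)
    have h4 : Real.exp (ν * lam ^ 2 * t / 2) * w ν lam t = 1 := by
      unfold w
      rw [← Real.exp_add]
      simp
    have := w_pos ν lam t
    nlinarith
  unfold T1
  rw [abs_of_nonneg (by have := (Real.exp_pos (-(ν * lam ^ 2 * t))).le; unfold T0; positivity), e1]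
  have hw := (w_pos ν lam t).le
  have h5 : lam ^ 2 * t * w ν lam t ≤ 2 / ν := by
    rw [le_div_iff₀ hν]
    nlinarith
  nlinarith

lemma oT0 {ν : ℝ} (hν : 0 < ν) : O0 ν (fun lam t _ => T0 ν lam t) := by
  refine ⟨fun lam t _ => -(ν * lam ^ 2) * T0 ν lam t, 1 + ν, by positivity,
    fun lam _ t _ => ⟨hT0 ν lam t, fun ht => ?_⟩⟩
  have h := T0_le (lam := lam) hν ht
  have hw := (w_pos ν lam t).le
  have hl : 0 ≤ lam ^ 2 := sq_nonneg _
  constructor
  · nlinarith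
  · rw [abs_mul, abs_neg, abs_of_nonneg (by positivity : 0 ≤ ν * lam ^ 2)]
    have := mul_le_mul_of_nonneg_left h (by positivity : 0 ≤ ν * lam ^ 2)
    have h5 : 0 ≤ lam ^ 2 * w ν lam t := by positivity
    nlinarith

lemma oT1 {ν : ℝ} (hν : 0 < ν) : O0 ν (fun lam t _ => T1 ν lam t) := by
  refine ⟨fun lam t _ => lam ^ 2 * T0 ν lam t - ν * lam ^ 2 * T1 ν lam t, 3 + 2 / ν, by positivity,
    fun lam _ t _ => ⟨hT1 ν lam t, fun ht => ?_⟩⟩
  have h := T0_le (lam := lam) hν ht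
  have h' := T1_le (lam := lam) hν ht
  have hw := (w_pos ν lam t).le
  have hl : 0 ≤ lam ^ 2 := sq_nonneg _
  constructor
  · nlinarith
  · have a1 := abs_sub (lam ^ 2 * T0 ν lam t) (ν * lam ^ 2 * T1 ν lam t)
    rw [abs_mul, abs_mul, abs_of_nonneg hl, abs_of_nonneg (by positivity : 0 ≤ ν * lam ^ 2)] at a1
    have a2 := mul_le_mul_of_nonneg_left h hl
    have a3 := mul_le_mul_of_nonneg_left h' (by positivity : 0 ≤ ν * lam ^ 2)
    have a4 : ν * lam ^ 2 * (2 / ν * w ν lam t) = 2 * (lam ^ 2 * w ν lam t) := by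
      field_simp
    have a5 : 0 ≤ 2 / ν * (lam ^ 2 * w ν lam t) := by positivity
    linarith

lemma bT3 {ν : ℝ} (hν : 0 < ν) : Bd (fun lam t _ => T3 ν lam t) := by
  refine ⟨fun lam t _ => -(2 * ν * lam ^ 2) * T3 ν lam t, 1 + 2 * ν, by positivity,
    fun lam _ t _ => ⟨hT3 ν lam t, fun ht => ?_⟩⟩
  have h := T3_le (lam := lam) hν ht
  have hl : 0 ≤ lam ^ 2 := sq_nonneg _
  constructor
  · linarith
  · rw [abs_mul, abs_neg, abs_of_nonneg (by positivity : 0 ≤ 2 * ν * lam ^ 2)]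
    have := mul_le_mul_of_nonneg_left h (by positivity : 0 ≤ 2 * ν * lam ^ 2)
    nlinarith

lemma oT2 {ν : ℝ} (hν : 0 < ν) : O0 ν (fun lam t _ => T2 ν lam t) := by
  have h1 : Bd (fun lam t (_ : E3) => (1 + (-1) * T3 ν lam t) * (2 * ν)⁻¹) :=
    ((Bd.const 1).add ((Bd.const (-1)).mul (bT3 hν))).mul (Bd.const _)
  refine ((oT0 hν).mul h1).congr fun lam _ t x => ?_
  unfold T2
  ring

/-! ### smooth functions with compact support -/

/-- partial derivative -/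
noncomputable def pd (i : Fin 3) (f : E3 → ℝ) (x : E3) : ℝ :=
  fderiv ℝ f x (EuclideanSpace.single i 1)

/-- smooth functions with compact support -/
def SC : Submodule ℝ (E3 → ℝ) where
  carrier := {f | ContDiff ℝ ∞ f ∧ HasCompactSupport f}
  add_mem' := fun hf hg => ⟨hf.1.add hg.1, hf.2.add hg.2⟩
  zero_mem' := ⟨contDiff_const, HasCompactSupport.zero⟩
  smul_mem' := fun c _ hf => ⟨contDiff_const.smul hf.1, hf.2.smul_left (f := fun _ => c)⟩

instance : CoeFun SC (fun _ => E3 → ℝ) := ⟨fun f => f.1⟩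

lemma sc_diff (f : SC) : Differentiable ℝ (f : E3 → ℝ) := f.2.1.differentiable (by norm_num)

lemma sc_bdd (f : SC) : ∃ C, 0 ≤ C ∧ ∀ x, |f x| ≤ C := by
  obtain ⟨C, hC⟩ := f.2.2.exists_bound_of_continuous f.2.1.continuous
  exact ⟨max C 0, le_max_right _ _, fun x => ((Real.norm_eq_abs _).symm.le.trans (hC x)).trans
    (le_max_left _ _)⟩

lemma sc_bd (f : SC) : Bd (fun _ _ x => f x) := by
  obtain ⟨C, hC, h⟩ := sc_bdd f
  exact Bd.of hC fun _ _ x => h x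

/-- partial derivatives on `SC` -/
noncomputable def D (i : Fin 3) : SC →ₗ[ℝ] SC where
  toFun f := ⟨pd i f, (f.2.1.fderiv_right (m := ∞) (by simp)).clm_apply contDiff_const,
    f.2.2.fderiv_apply (𝕜 := ℝ) _⟩
  map_add' f g := by
    ext x
    show pd i ((f + g : SC) : E3 → ℝ) x = pd i f x + pd i g x
    unfold pd
    rw [show (((f + g : SC) : E3 → ℝ)) = (f : E3 → ℝ) + (g : E3 → ℝ) from rfl,
      fderiv_add (sc_diff f x) (sc_diff g x)]
    rfl
  map_smul' c f := by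
    ext x
    show pd i ((c • f : SC) : E3 → ℝ) x = c * pd i f x
    unfold pd
    rw [show (((c • f : SC) : E3 → ℝ)) = c • (f : E3 → ℝ) from rfl,
      fderiv_const_smul (sc_diff f x)]
    rfl

lemma D_apply (i : Fin 3) (f : SC) (x : E3) : D i f x = pd i f x := rfl

/-- products -/
def mulS (f g : SC) : SC := ⟨fun x => f x * g x, f.2.1.mul g.2.1, f.2.2.mul_right⟩

lemma contDiff_coord (k : Fin 3) : ContDiff ℝ ∞ (fun x : E3 => x k) :=
  (EuclideanSpace.proj (𝕜 := ℝ) k).contDiff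

/-- `P sin(λ x_k) + Q cos(λ x_k)` -/
noncomputable def EV (lam : ℝ) (k : Fin 3) (P Q : SC) : SC :=
  ⟨fun x => P x * Real.sin (lam * x k) + Q x * Real.cos (lam * x k),
    (P.2.1.mul (Real.contDiff_sin.comp (contDiff_const.mul (contDiff_coord k)))).add
      (Q.2.1.mul (Real.contDiff_cos.comp (contDiff_const.mul (contDiff_coord k)))),
    (P.2.2.mul_right).add (Q.2.2.mul_right)⟩

lemma EV_apply (lam : ℝ) (k : Fin 3) (P Q : SC) (x : E3) :
    EV lam k P Q x = P x * Real.sin (lam * x k) + Q x * Real.cos (lam * x k) := rfl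

lemma D_EV (lam : ℝ) (k i : Fin 3) (P Q : SC) :
    D i (EV lam k P Q) = EV lam k (D i P - (if i = k then lam else 0) • Q)
      (D i Q + (if i = k then lam else 0) • P) := by
  ext x
  show pd i (EV lam k P Q) x = (D i P x - (if i = k then lam else 0) * Q x) * Real.sin (lam * x k)
    + (D i Q x + (if i = k then lam else 0) * P x) * Real.cos (lam * x k)
  have hc : HasFDerivAt (fun y : E3 => lam * y k) (lam • (EuclideanSpace.proj (𝕜 := ℝ) k : E3 →L[ℝ] ℝ)) x :=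
    ((EuclideanSpace.proj (𝕜 := ℝ) k : E3 →L[ℝ] ℝ).hasFDerivAt (x := x)).const_mul lam
  have h1 := ((sc_diff P x).hasFDerivAt.mul hc.sin).add ((sc_diff Q x).hasFDerivAt.mul hc.cos)
  have h2 : fderiv ℝ (EV lam k P Q : E3 → ℝ) x = _ := h1.fderiv
  unfold pd
  rw [h2, D_apply, D_apply]
  unfold pd
  have h3 : (EuclideanSpace.proj (𝕜 := ℝ) k : E3 →L[ℝ] ℝ) (EuclideanSpace.single i 1) =
      if i = k then 1 else 0 := by
    simp [eq_comm]
  simp only [ContinuousLinearMap.add_apply, ContinuousLinearMap.smul_apply, smul_eq_mul, h3]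
  split_ifs <;> ring

end Run7.h795.DD
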