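import Pool.Agent.Run7.h744.DD.Iface
import Pool.Agent.Run7.h795.DD.Cls

/-!
Project DD, piece PK: the residual of one packet is `O(λ)`.
-/

set_option autoImplicit false

open MeasureTheory Set
open scoped ContDiff

namespace Run7.h795.DD

/-- the data of a packet, as elements of `SC` -/
structure Dat where
  ν : ℝ
  hν : 0 < ν
  l : Fin 3
  a : SC
  U : Fin 3 → SC
  V : Fin 3 → SC

namespace Dat

/-- the direction of the oscillation -/
def k (d : Dat) : Fin 3 := d.l + 1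

/-- the third direction -/
def e (d : Dat) : Fin 3 := d.l + 2

noncomputable def u (d : Dat) : SC := mulS d.a (d.U d.k)
noncomputable def v (d : Dat) : SC := mulS d.a (d.V d.k)
noncomputable def β (d : Dat) : SC := (2 * d.ν) • D d.k d.a - d.u

noncomputable def Psi (d : Dat) (lam t : ℝ) : SC :=
  EV lam d.k (T0 d.ν lam t • d.a) (lam⁻¹ • (T1 d.ν lam t • d.β - T2 d.ν lam t • d.v))

noncomputable def P (d : Dat) (lam t : ℝ) (j : Fin 3) : SC :=
  if j = d.l then D d.k (d.Psi lam t) else if j = d.k then -D d.l (d.Psi lam t) else 0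

noncomputable def MM (d : Dat) (lam t : ℝ) (j : Fin 3) : SC := d.U j + T3 d.ν lam t • d.V j

noncomputable def fA (d : Dat) (h : SC) (lam t : ℝ) (x : E3) : ℝ := T0 d.ν lam t * h x
noncomputable def fB (d : Dat) (h h' : SC) (lam t : ℝ) (x : E3) : ℝ :=
  T1 d.ν lam t * h x - T2 d.ν lam t * h' x
noncomputable def fM (d : Dat) (h h' : SC) (lam t : ℝ) (x : E3) : ℝ :=
  T0 d.ν lam t * h x + T0 d.ν lam t * (T3 d.ν lam t * h' x)
noncomputable def m (d : Dat) (j : Fin 3) (lam t : ℝ) (x : E3) : ℝ :=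
  d.U j x + T3 d.ν lam t * d.V j x
noncomputable def mp (d : Dat) (i j : Fin 3) (lam t : ℝ) (x : E3) : ℝ :=
  D i (d.U j) x + T3 d.ν lam t * D i (d.V j) x
noncomputable def S (d : Dat) (lam _t : ℝ) (x : E3) : ℝ := Real.sin (lam * x d.k)
noncomputable def C (d : Dat) (lam _t : ℝ) (x : E3) : ℝ := Real.cos (lam * x d.k)

variable (d : Dat)

lemma oA (h : SC) : O0 d.ν (d.fA h) := (oT0 d.hν).mul (sc_bd h)
lemma oB (h h' : SC) : O0 d.ν (d.fB h h') := ((oT1 d.hν).mul (sc_bd h)).sub ((oT2 d.hν).mul (sc_bd h'))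
lemma oM (h h' : SC) : O0 d.ν (d.fM h h') :=
  ((oT0 d.hν).mul (sc_bd h)).add ((oT0 d.hν).mul ((bT3 d.hν).mul (sc_bd h')))
lemma bm (j : Fin 3) : Bd (d.m j) := (sc_bd _).add ((bT3 d.hν).mul (sc_bd _))
lemma bmp (i j : Fin 3) : Bd (d.mp i j) := (sc_bd _).add ((bT3 d.hν).mul (sc_bd _))
lemma bS : Bd d.S := Bd.of zero_le_one fun _ _ _ => Real.abs_sin_le_one _
lemma bC : Bd d.C := Bd.of zero_le_one fun _ _ _ => Real.abs_cos_le_one _

/-! the derivatives of the stream function -/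

/-- `ψ_κ / λ` -/
noncomputable def X0 (lam t : ℝ) (x : E3) : ℝ :=
  (d.fA (D d.k d.a) lam t x - d.fB d.β d.v lam t x) * (lam⁻¹ * d.S lam t x)
    + (d.fB (D d.k d.β) (D d.k d.v) lam t x * (lam⁻¹ * lam⁻¹) + d.fA d.a lam t x) * d.C lam t x

/-- `ψ_ξ` -/
noncomputable def K0 (lam t : ℝ) (x : E3) : ℝ :=
  d.fA (D d.l d.a) lam t x * d.S lam t x
    + d.fB (D d.l d.β) (D d.l d.v) lam t x * (lam⁻¹ * d.C lam t x)

/-- `(ψ_κκ + λ² A s) / λ` -/
noncomputable def s4 (lam t : ℝ) (x : E3) : ℝ :=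
  (d.fA (D d.k (D d.k d.a)) lam t x - d.fB (D d.k d.β) (D d.k d.v) lam t x * 2)
      * (lam⁻¹ * d.S lam t x)
    + (d.fB (D d.k (D d.k d.β)) (D d.k (D d.k d.v)) lam t x * (lam⁻¹ * lam⁻¹)
      + d.fA (D d.k d.a) lam t x * 2 - d.fB d.β d.v lam t x) * d.C lam t x

/-- `∂_j ψ_κ - λ A_j c`, `j ≠ κ` -/
noncomputable def r2 (j : Fin 3) (lam t : ℝ) (x : E3) : ℝ :=
  (d.fA (D j (D d.k d.a)) lam t x - d.fB (D j d.β) (D j d.v) lam t x) * d.S lam t x
    + d.fB (D j (D d.k d.β)) (D j (D d.k d.v)) lam t x * (lam⁻¹ * d.C lam t x)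

/-- `∂_j ψ_κ / λ`, `j ≠ κ` -/
noncomputable def Xj (j : Fin 3) (lam t : ℝ) (x : E3) : ℝ :=
  d.r2 j lam t x * lam⁻¹ + d.fA (D j d.a) lam t x * d.C lam t x

/-- `ψ_κ - λ A c` -/
noncomputable def r1 (lam t : ℝ) (x : E3) : ℝ :=
  (d.fA (D d.k d.a) lam t x - d.fB d.β d.v lam t x) * d.S lam t x
    + d.fB (D d.k d.β) (D d.k d.v) lam t x * (lam⁻¹ * d.C lam t x)

/-- `λ (ψ_ξ - A_ξ s)` -/
noncomputable def s3 (lam t : ℝ) (x : E3) : ℝ :=
  d.fB (D d.l d.β) (D d.l d.v) lam t x * d.C lam t x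

/-- the nonlinear term, component `ξ` -/
noncomputable def NL (lam t : ℝ) (x : E3) : ℝ :=
  d.fA d.a lam t x * (d.C lam t x * d.r2 d.l lam t x)
    + d.fA (D d.l d.a) lam t x * (d.C lam t x * d.r1 lam t x)
    + d.r1 lam t x * (d.r2 d.l lam t x * lam⁻¹)
    - d.fA (D d.l d.a) lam t x * (d.S lam t x * d.s4 lam t x)
    + d.fA d.a lam t x * (d.S lam t x * d.s3 lam t x)
    - d.s3 lam t x * (d.s4 lam t x * lam⁻¹)

/-- the linear term `(ν Δ - ∂_t) ψ_κ + λ² A m_κ s`, divided by `λ` -/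
noncomputable def LX (lam t : ℝ) (x : E3) : ℝ :=
  ((d.fA (D d.k (D d.k (D d.k d.a))) lam t x + d.fA (D d.l (D d.l (D d.k d.a))) lam t x
      + d.fA (D d.e (D d.e (D d.k d.a))) lam t x)
    - d.fB (D d.k (D d.k d.β)) (D d.k (D d.k d.v)) lam t x * 3
    - d.fB (D d.l (D d.l d.β)) (D d.l (D d.l d.v)) lam t x
    - d.fB (D d.e (D d.e d.β)) (D d.e (D d.e d.v)) lam t x) * (d.ν * (lam⁻¹ * d.S lam t x))
  + ((d.fB (D d.k (D d.k (D d.k d.β))) (D d.k (D d.k (D d.k d.v))) lam t x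
      + d.fB (D d.l (D d.l (D d.k d.β))) (D d.l (D d.l (D d.k d.v))) lam t x
      + d.fB (D d.e (D d.e (D d.k d.β))) (D d.e (D d.e (D d.k d.v))) lam t x)
        * (d.ν * (lam⁻¹ * lam⁻¹))
    + (d.fA (D d.k (D d.k d.a)) lam t x + d.fA (D d.l (D d.l d.a)) lam t x
      + d.fA (D d.e (D d.e d.a)) lam t x) * d.ν
    - d.fB (D d.k d.β) (D d.k d.v) lam t x * (2 * d.ν)
    + d.fM (D d.k d.u) (D d.k d.v) lam t x) * d.C lam t x

/-- the residual, component `ξ`, divided by `λ` -/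
noncomputable def FX (lam t : ℝ) (x : E3) : ℝ :=
  d.LX lam t x - d.s4 lam t x * d.m d.k lam t x - d.Xj d.l lam t x * d.m d.l lam t x
    - d.Xj d.e lam t x * d.m d.e lam t x - d.NL lam t x
    - (d.X0 lam t x * d.mp d.l d.l lam t x - d.K0 lam t x * (lam⁻¹ * d.mp d.k d.l lam t x))

/-- `∂_κ ψ_ξ / λ` -/
noncomputable def Kk (lam t : ℝ) (x : E3) : ℝ :=
  (d.fA (D d.k (D d.l d.a)) lam t x - d.fB (D d.l d.β) (D d.l d.v) lam t x) * (lam⁻¹ * d.S lam t x)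
    + (d.fB (D d.k (D d.l d.β)) (D d.k (D d.l d.v)) lam t x * (lam⁻¹ * lam⁻¹)
      + d.fA (D d.l d.a) lam t x) * d.C lam t x

/-- `∂_j ψ_ξ`, `j ≠ κ` -/
noncomputable def Kj (j : Fin 3) (lam t : ℝ) (x : E3) : ℝ :=
  d.fA (D j (D d.l d.a)) lam t x * d.S lam t x
    + d.fB (D j (D d.l d.β)) (D j (D d.l d.v)) lam t x * (lam⁻¹ * d.C lam t x)

/-- the linear term `(ν Δ - ∂_t) ψ_ξ`, divided by `λ` -/
noncomputable def LK (lam t : ℝ) (x : E3) : ℝ :=
  ((d.fA (D d.k (D d.k (D d.l d.a))) lam t x + d.fA (D d.l (D d.l (D d.l d.a))) lam t x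
      + d.fA (D d.e (D d.e (D d.l d.a))) lam t x)
    - d.fB (D d.k (D d.l d.β)) (D d.k (D d.l d.v)) lam t x * 2) * (d.ν * (lam⁻¹ * d.S lam t x))
  + ((d.fB (D d.k (D d.k (D d.l d.β))) (D d.k (D d.k (D d.l d.v))) lam t x
      + d.fB (D d.l (D d.l (D d.l d.β))) (D d.l (D d.l (D d.l d.v))) lam t x
      + d.fB (D d.e (D d.e (D d.l d.β))) (D d.e (D d.e (D d.l d.v))) lam t x)
        * (d.ν * (lam⁻¹ * lam⁻¹))
    + (d.fA (D d.k (D d.l d.a)) lam t x - d.fA (D d.l (D d.k d.a)) lam t x) * (2 * d.ν)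
    + d.fM (D d.l d.u) (D d.l d.v) lam t x) * d.C lam t x

/-- the residual, component `κ`, divided by `λ` -/
noncomputable def FK (lam t : ℝ) (x : E3) : ℝ :=
  -d.LK lam t x + (d.X0 lam t x * d.Kj d.l lam t x - d.K0 lam t x * d.Kk lam t x)
    + (d.Kk lam t x * d.m d.k lam t x + d.Kj d.l lam t x * (lam⁻¹ * d.m d.l lam t x)
      + d.Kj d.e lam t x * (lam⁻¹ * d.m d.e lam t x))
    - (d.X0 lam t x * d.mp d.l d.k lam t x - d.K0 lam t x * (lam⁻¹ * d.mp d.k d.k lam t x))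

/-- the residual, component `η`, divided by `λ` -/
noncomputable def FE (lam t : ℝ) (x : E3) : ℝ :=
  -(d.X0 lam t x * d.mp d.l d.e lam t x - d.K0 lam t x * (lam⁻¹ * d.mp d.k d.e lam t x))

/-! ### the classes -/

lemma bI : Bd (fun lam _ _ => lam⁻¹) := Bd.inv

lemma oX0 : O0 d.ν d.X0 :=
  (((d.oA _).sub (d.oB _ _)).mul (Bd.inv.mul d.bS)).add
    ((((d.oB _ _).mul (Bd.inv.mul Bd.inv)).add (d.oA _)).mul d.bC)

lemma oK0 : O0 d.ν d.K0 := ((d.oA _).mul d.bS).add ((d.oB _ _).mul (Bd.inv.mul d.bC))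

lemma os4 : O0 d.ν d.s4 :=
  (((d.oA _).sub ((d.oB _ _).mul (Bd.const 2))).mul (Bd.inv.mul d.bS)).add
    (((((d.oB _ _).mul (Bd.inv.mul Bd.inv)).add ((d.oA _).mul (Bd.const 2))).sub
      (d.oB _ _)).mul d.bC)

lemma or2 (j : Fin 3) : O0 d.ν (d.r2 j) :=
  (((d.oA _).sub (d.oB _ _)).mul d.bS).add ((d.oB _ _).mul (Bd.inv.mul d.bC))

lemma oXj (j : Fin 3) : O0 d.ν (d.Xj j) := ((d.or2 j).mul Bd.inv).add ((d.oA _).mul d.bC)

lemma or1 : O0 d.ν d.r1 :=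
  (((d.oA _).sub (d.oB _ _)).mul d.bS).add ((d.oB _ _).mul (Bd.inv.mul d.bC))

lemma os3 : O0 d.ν d.s3 := (d.oB _ _).mul d.bC

lemma oNL : O0 d.ν d.NL :=
  ((((((d.oA _).mul (d.bC.mul ((d.or2 _).bd d.hν))).add
    ((d.oA _).mul (d.bC.mul (d.or1.bd d.hν)))).add
    (d.or1.mul (((d.or2 _).bd d.hν).mul Bd.inv))).sub
    ((d.oA _).mul (d.bS.mul (d.os4.bd d.hν)))).add
    ((d.oA _).mul (d.bS.mul (d.os3.bd d.hν)))).sub
    (d.os3.mul ((d.os4.bd d.hν).mul Bd.inv))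

lemma oLX : O0 d.ν d.LX :=
  (((((((d.oA _).add (d.oA _)).add (d.oA _)).sub ((d.oB _ _).mul (Bd.const 3))).sub
    (d.oB _ _)).sub (d.oB _ _)).mul ((Bd.const d.ν).mul (Bd.inv.mul d.bS))).add
  ((((((((d.oB _ _).add (d.oB _ _)).add (d.oB _ _)).mul ((Bd.const d.ν).mul (Bd.inv.mul Bd.inv))).add
    ((((d.oA _).add (d.oA _)).add (d.oA _)).mul (Bd.const d.ν))).sub
    ((d.oB _ _).mul (Bd.const (2 * d.ν)))).add (d.oM _ _)).mul d.bC)

lemma oFX : O0 d.ν d.FX :=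
  (((((d.oLX.sub (d.os4.mul (d.bm _))).sub ((d.oXj _).mul (d.bm _))).sub
    ((d.oXj _).mul (d.bm _))).sub d.oNL).sub
    ((d.oX0.mul (d.bmp _ _)).sub (d.oK0.mul (Bd.inv.mul (d.bmp _ _)))))

lemma oKk : O0 d.ν d.Kk :=
  (((d.oA _).sub (d.oB _ _)).mul (Bd.inv.mul d.bS)).add
    ((((d.oB _ _).mul (Bd.inv.mul Bd.inv)).add (d.oA _)).mul d.bC)

lemma oKj (j : Fin 3) : O0 d.ν (d.Kj j) := ((d.oA _).mul d.bS).add ((d.oB _ _).mul (Bd.inv.mul d.bC))

lemma oLK : O0 d.ν d.LK :=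
  (((((d.oA _).add (d.oA _)).add (d.oA _)).sub ((d.oB _ _).mul (Bd.const 2))).mul
    ((Bd.const d.ν).mul (Bd.inv.mul d.bS))).add
  ((((((d.oB _ _).add (d.oB _ _)).add (d.oB _ _)).mul ((Bd.const d.ν).mul (Bd.inv.mul Bd.inv))).add
    (((d.oA _).sub (d.oA _)).mul (Bd.const (2 * d.ν)))).add (d.oM _ _) |>.mul d.bC)

lemma oFK : O0 d.ν d.FK :=
  ((d.oLK.neg.add ((d.oX0.mul ((d.oKj _).bd d.hν)).sub (d.oK0.mul (d.oKk.bd d.hν)))).add
    (((d.oKk.mul (d.bm _)).add ((d.oKj _).mul (Bd.inv.mul (d.bm _)))).add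
      ((d.oKj _).mul (Bd.inv.mul (d.bm _))))).sub
    ((d.oX0.mul (d.bmp _ _)).sub (d.oK0.mul (Bd.inv.mul (d.bmp _ _))))

lemma oFE : O0 d.ν d.FE :=
  ((d.oX0.mul (d.bmp _ _)).sub (d.oK0.mul (Bd.inv.mul (d.bmp _ _)))).neg

/-! ### the derivatives of the stream function -/

lemma ne1 (l : Fin 3) : l ≠ l + 1 := by decide +revert
lemma ne2 (l : Fin 3) : l + 2 ≠ l + 1 := by decide +revert
lemma ne3 (l : Fin 3) : l + 2 ≠ l := by decide +revert
lemma sum3 (l : Fin 3) (f : Fin 3 → ℝ) : ∑ j, f j = f l + f (l + 1) + f (l + 2) := by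
  fin_cases l <;> simp [Fin.sum_univ_three] <;> ring

lemma lk : d.l ≠ d.k := ne1 _
lemma ek : d.e ≠ d.k := ne2 _
lemma el : d.e ≠ d.l := ne3 _
lemma sum3' (f : Fin 3 → ℝ) : ∑ j, f j = f d.l + f d.k + f d.e := sum3 _ f

lemma D_EV_k (lam : ℝ) (P Q : SC) :
    D d.k (EV lam d.k P Q) = EV lam d.k (D d.k P - lam • Q) (D d.k Q + lam • P) := by
  rw [D_EV, if_pos rfl]

lemma D_EV_l (lam : ℝ) (P Q : SC) : D d.l (EV lam d.k P Q) = EV lam d.k (D d.l P) (D d.l Q) := by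
  rw [D_EV, if_neg d.lk, zero_smul, zero_smul, sub_zero, add_zero]

lemma D_EV_e (lam : ℝ) (P Q : SC) : D d.e (EV lam d.k P Q) = EV lam d.k (D d.e P) (D d.e Q) := by
  rw [D_EV, if_neg d.ek, zero_smul, zero_smul, sub_zero, add_zero]

lemma Psi_k (lam t : ℝ) : D d.k (d.Psi lam t) = EV lam d.k
    (T0 d.ν lam t • D d.k d.a - lam • (lam⁻¹ • (T1 d.ν lam t • d.β - T2 d.ν lam t • d.v)))
    (lam⁻¹ • (T1 d.ν lam t • D d.k d.β - T2 d.ν lam t • D d.k d.v) + lam • (T0 d.ν lam t • d.a)) := by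
  rw [Psi, D_EV_k]
  simp only [map_smul, map_sub]

lemma Psi_l (lam t : ℝ) : D d.l (d.Psi lam t) = EV lam d.k (T0 d.ν lam t • D d.l d.a)
    (lam⁻¹ • (T1 d.ν lam t • D d.l d.β - T2 d.ν lam t • D d.l d.v)) := by
  rw [Psi, D_EV_l]
  simp only [map_smul, map_sub]

section values

variable {lam : ℝ} (t : ℝ) (x : E3)

lemma vX (h : lam ≠ 0) : D d.k (d.Psi lam t) x = lam * d.X0 lam t x := by
  rw [Psi_k, EV_apply]
  simp only [Submodule.coe_add, Submodule.coe_sub, Submodule.coe_smul, Pi.add_apply, Pi.sub_apply,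
    Pi.smul_apply, smul_eq_mul, X0, fA, fB, S, C]
  field_simp

lemma vX1 (h : lam ≠ 0) : D d.k (d.Psi lam t) x
    = lam * (d.fA d.a lam t x * d.C lam t x) + d.r1 lam t x := by
  rw [Psi_k, EV_apply]
  simp only [Submodule.coe_add, Submodule.coe_sub, Submodule.coe_smul, Pi.add_apply, Pi.sub_apply,
    Pi.smul_apply, smul_eq_mul, r1, fA, fB, S, C]
  field_simp
  ring

lemma vK : D d.l (d.Psi lam t) x = d.K0 lam t x := by
  rw [Psi_l, EV_apply]
  simp only [Submodule.coe_sub, Submodule.coe_smul, Pi.sub_apply,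
    Pi.smul_apply, smul_eq_mul, K0, fA, fB, S, C]
  ring

lemma vK1 : D d.l (d.Psi lam t) x
    = d.fA (D d.l d.a) lam t x * d.S lam t x + d.s3 lam t x * lam⁻¹ := by
  rw [Psi_l, EV_apply]
  simp only [Submodule.coe_sub, Submodule.coe_smul, Pi.sub_apply,
    Pi.smul_apply, smul_eq_mul, s3, fA, fB, S, C]
  ring

lemma vXk (h : lam ≠ 0) : D d.k (D d.k (d.Psi lam t)) x
    = -(lam ^ 2 * (d.fA d.a lam t x * d.S lam t x)) + lam * d.s4 lam t x := by
  rw [Psi_k, D_EV_k, EV_apply]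
  simp only [map_add, map_sub, map_smul, Submodule.coe_add, Submodule.coe_sub, Submodule.coe_smul,
    Pi.add_apply, Pi.sub_apply, Pi.smul_apply, smul_eq_mul, s4, fA, fB, S, C]
  field_simp
  ring

lemma vXl (h : lam ≠ 0) : D d.l (D d.k (d.Psi lam t)) x
    = lam * (d.fA (D d.l d.a) lam t x * d.C lam t x) + d.r2 d.l lam t x := by
  rw [Psi_k, D_EV_l, EV_apply]
  simp only [map_add, map_sub, map_smul, Submodule.coe_add, Submodule.coe_sub, Submodule.coe_smul,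
    Pi.add_apply, Pi.sub_apply, Pi.smul_apply, smul_eq_mul, r2, fA, fB, S, C]
  field_simp
  ring

lemma vXl' (h : lam ≠ 0) : D d.l (D d.k (d.Psi lam t)) x = lam * d.Xj d.l lam t x := by
  rw [vXl d t x h, Xj]
  field_simp
  ring

lemma vXe (h : lam ≠ 0) : D d.e (D d.k (d.Psi lam t)) x = lam * d.Xj d.e lam t x := by
  rw [Psi_k, D_EV_e, EV_apply]
  simp only [map_add, map_sub, map_smul, Submodule.coe_add, Submodule.coe_sub, Submodule.coe_smul,
    Pi.add_apply, Pi.sub_apply, Pi.smul_apply, smul_eq_mul, Xj, r2, fA, fB, S, C]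
  field_simp
  ring

lemma vKk (h : lam ≠ 0) : D d.k (D d.l (d.Psi lam t)) x = lam * d.Kk lam t x := by
  rw [Psi_l, D_EV_k, EV_apply]
  simp only [map_sub, map_smul, Submodule.coe_add, Submodule.coe_sub, Submodule.coe_smul,
    Pi.add_apply, Pi.sub_apply, Pi.smul_apply, smul_eq_mul, Kk, fA, fB, S, C]
  field_simp

lemma vKl : D d.l (D d.l (d.Psi lam t)) x = d.Kj d.l lam t x := by
  rw [Psi_l, D_EV_l, EV_apply]
  simp only [map_sub, map_smul, Submodule.coe_sub, Submodule.coe_smul,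
    Pi.sub_apply, Pi.smul_apply, smul_eq_mul, Kj, fA, fB, S, C]
  ring

lemma vKe : D d.e (D d.l (d.Psi lam t)) x = d.Kj d.e lam t x := by
  rw [Psi_l, D_EV_e, EV_apply]
  simp only [map_sub, map_smul, Submodule.coe_sub, Submodule.coe_smul,
    Pi.sub_apply, Pi.smul_apply, smul_eq_mul, Kj, fA, fB, S, C]
  ring

lemma β_ap (y : E3) : d.β y = 2 * d.ν * D d.k d.a y - d.u y := rfl

lemma Dβ : D d.k d.β = (2 * d.ν) • D d.k (D d.k d.a) - D d.k d.u := by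
  rw [β, map_sub, map_smul]

lemma Dβl : D d.l d.β = (2 * d.ν) • D d.l (D d.k d.a) - D d.l d.u := by
  rw [β, map_sub, map_smul]

lemma u_ap (y : E3) : d.u y = d.a y * d.U d.k y := rfl
lemma v_ap (y : E3) : d.v y = d.a y * d.V d.k y := rfl

lemma dtX : HasDerivAt (fun s => D d.k (d.Psi lam s) x)
    ((-(d.ν * lam ^ 2) * T0 d.ν lam t * D d.k d.a x
        - lam * (lam⁻¹ * ((lam ^ 2 * T0 d.ν lam t - d.ν * lam ^ 2 * T1 d.ν lam t) * d.β x
          - (-(d.ν * lam ^ 2) * T2 d.ν lam t + lam ^ 2 * (T0 d.ν lam t * T3 d.ν lam t)) * d.v x)))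
        * Real.sin (lam * x d.k)
      + (lam⁻¹ * ((lam ^ 2 * T0 d.ν lam t - d.ν * lam ^ 2 * T1 d.ν lam t) * D d.k d.β x
          - (-(d.ν * lam ^ 2) * T2 d.ν lam t + lam ^ 2 * (T0 d.ν lam t * T3 d.ν lam t)) * D d.k d.v x)
        + lam * (-(d.ν * lam ^ 2) * T0 d.ν lam t * d.a x)) * Real.cos (lam * x d.k)) t := by
  have e : (fun s => D d.k (d.Psi lam s) x) = fun s =>
      (T0 d.ν lam s * D d.k d.a x
        - lam * (lam⁻¹ * (T1 d.ν lam s * d.β x - T2 d.ν lam s * d.v x))) * Real.sin (lam * x d.k)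
      + (lam⁻¹ * (T1 d.ν lam s * D d.k d.β x - T2 d.ν lam s * D d.k d.v x)
        + lam * (T0 d.ν lam s * d.a x)) * Real.cos (lam * x d.k) := by
    funext s
    rw [Psi_k, EV_apply]
    rfl
  rw [e]
  have h0 := hT0 d.ν lam t
  have h1 := hT1 d.ν lam t
  have h2 := hT2 d.hν lam t
  exact (((h0.mul_const _).sub ((((h1.mul_const _).sub (h2.mul_const _)).const_mul _).const_mul
    _)).mul_const _).add ((((((h1.mul_const _).sub (h2.mul_const _)).const_mul _)).add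
    ((h0.mul_const _).const_mul _)).mul_const _)

lemma dtK : HasDerivAt (fun s => D d.l (d.Psi lam s) x)
    ((-(d.ν * lam ^ 2) * T0 d.ν lam t * D d.l d.a x) * Real.sin (lam * x d.k)
      + (lam⁻¹ * ((lam ^ 2 * T0 d.ν lam t - d.ν * lam ^ 2 * T1 d.ν lam t) * D d.l d.β x
          - (-(d.ν * lam ^ 2) * T2 d.ν lam t + lam ^ 2 * (T0 d.ν lam t * T3 d.ν lam t)) * D d.l d.v x))
        * Real.cos (lam * x d.k)) t := by
  have e : (fun s => D d.l (d.Psi lam s) x) = fun s =>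
      (T0 d.ν lam s * D d.l d.a x) * Real.sin (lam * x d.k)
      + (lam⁻¹ * (T1 d.ν lam s * D d.l d.β x - T2 d.ν lam s * D d.l d.v x))
        * Real.cos (lam * x d.k) := by
    funext s
    rw [Psi_l, EV_apply]
    rfl
  rw [e]
  have h0 := hT0 d.ν lam t
  have h1 := hT1 d.ν lam t
  have h2 := hT2 d.hν lam t
  exact (((h0.mul_const _)).mul_const _).add
    (((((h1.mul_const _).sub (h2.mul_const _)).const_mul _)).mul_const _)

/-- the linear part, component `ξ` -/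
lemma linX (h : lam ≠ 0) :
    d.ν * (D d.l (D d.l (D d.k (d.Psi lam t))) x + D d.k (D d.k (D d.k (d.Psi lam t))) x
      + D d.e (D d.e (D d.k (d.Psi lam t))) x) - deriv (fun s => D d.k (d.Psi lam s) x) t
    = lam * d.LX lam t x
      - lam ^ 2 * (d.fA d.a lam t x * (d.m d.k lam t x * d.S lam t x)) := by
  rw [(d.dtX t x).deriv, Psi_k, D_EV_l, D_EV_l, D_EV_k, D_EV_k, D_EV_e, D_EV_e, EV_apply, EV_apply,
    EV_apply]
  simp only [map_add, map_sub, map_smul, Submodule.coe_add, Submodule.coe_sub, Submodule.coe_smul,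
    Pi.add_apply, Pi.sub_apply, Pi.smul_apply, smul_eq_mul, LX, fA, fB, fM, m, S, C, Dβ, β_ap,
    u_ap, v_ap]
  field_simp
  ring

/-- the linear part, component `κ` -/
lemma linK (h : lam ≠ 0) :
    d.ν * (D d.l (D d.l (D d.l (d.Psi lam t))) x + D d.k (D d.k (D d.l (d.Psi lam t))) x
      + D d.e (D d.e (D d.l (d.Psi lam t))) x) - deriv (fun s => D d.l (d.Psi lam s) x) t
    = lam * d.LK lam t x := by
  rw [(d.dtK t x).deriv, Psi_l, D_EV_l, D_EV_l, D_EV_k, D_EV_k, D_EV_e, D_EV_e, EV_apply, EV_apply,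
    EV_apply]
  simp only [map_add, map_sub, map_smul, Submodule.coe_add, Submodule.coe_sub, Submodule.coe_smul,
    Pi.add_apply, Pi.sub_apply, Pi.smul_apply, smul_eq_mul, LK, fA, fB, fM, S, C, Dβl]
  field_simp
  ring

end values

end Dat

end Run7.h795.DD
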